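import Mathlib.ModelTheory.Semantics
import Mathlib.Algebra.Algebra.NonUnitalSubalgebra
import Mathlib.LinearAlgebra.FiniteDimensional.Lemmas
import Mathlib.LinearAlgebra.StdBasis
import Mathlib.Tactic

/-!
# MP_00fd70_lc, Q1: the nilpotent associative algebras are logically perfect and regular

For every field `P` and every `n ≥ 2` the variety `Θ_n(P)` of the associative (not necessarily
unital) `P`-algebras with the identity `x₁ x₂ ⋯ x_n = 0` is logically perfect and logically regular.
-/

set_option autoImplicit false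
set_option linter.unusedSectionVars false

open FirstOrder FirstOrder.Language

namespace Pool.Agent.Results.MP_00fd70_lc.PerfectAndRegular

universe u

/-- The operation symbols: `0`, `-`, the scalars, `+` and `·`. -/
inductive Op (P : Type u) : ℕ → Type u
  | zero : Op P 0
  | neg : Op P 1
  | smul : P → Op P 1
  | add : Op P 2
  | mul : Op P 2

/-- The signature of the associative `P`-algebras. -/
def Lang (P : Type u) : FirstOrder.Language.{u, u} := ⟨Op P, fun _ => PEmpty⟩

/-- Every (non-unital) `P`-algebra is a first-order structure. -/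
instance algStructure (P : Type u) [Field P] (H : Type u) [NonUnitalRing H] [Module P H] :
    (Lang P).Structure H where
  funMap := fun {n} (f : Op P n) =>
    match n, f with
    | _, Op.zero => fun _ => 0
    | _, Op.neg => fun v => - v 0
    | _, Op.smul c => fun v => c • v 0
    | _, Op.add => fun v => v 0 + v 1
    | _, Op.mul => fun v => v 0 * v 1
  RelMap := fun {_} r => PEmpty.elim r

/-- The identity `x₁ x₂ ⋯ x_n = 0`. -/
def IsNilpotent (n : ℕ) (H : Type u) [NonUnitalRing H] : Prop :=
  ∀ (a : H) (l : List H), l.length + 1 = n → l.foldl (· * ·) a = 0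

/-- The tuples `a` (in `M`) and `b` (in `N`) have the same type. -/
def SameType (P : Type u) [Field P] {M N : Type u} [NonUnitalRing M] [Module P M]
    [NonUnitalRing N] [Module P N] {m : ℕ} (a : Fin m → M) (b : Fin m → N) : Prop :=
  ∀ φ : (Lang P).Formula (Fin m), φ.Realize a ↔ φ.Realize b

/-- Isotypic algebras: for every `m ≥ 1`, the same types of `m`-tuples are realized in them. -/
def Isotypic (P : Type u) [Field P] (M N : Type u) [NonUnitalRing M] [Module P M]
    [NonUnitalRing N] [Module P N] : Prop :=
  ∀ m : ℕ, 1 ≤ m → (∀ a : Fin m → M, ∃ b : Fin m → N, SameType P a b) ∧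
    ∀ b : Fin m → N, ∃ a : Fin m → M, SameType P a b

/-- `W` (in `Θ_n(P)`) is free in `Θ_n(P)` on the elements `x i`, `i < k`. -/
def IsFree (P : Type u) [Field P] (n : ℕ) {W : Type u} [NonUnitalRing W] [Module P W]
    {k : ℕ} (x : Fin k → W) : Prop :=
  ∀ (H : Type u) [NonUnitalRing H] [Module P H] [IsScalarTower P H H] [SMulCommClass P H H],
    IsNilpotent n H → ∀ h : Fin k → H, ∃! f : W →ₙₐ[P] H, ∀ i, f (x i) = h i

/-- Logically homogeneous algebras. -/
def LogicallyHomogeneous (P : Type u) [Field P] (W : Type u) [NonUnitalRing W] [Module P W] :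
    Prop :=
  ∀ (m : ℕ) (a b : Fin m → W), SameType P a b ↔
    ∃ σ : W →ₙₐ[P] W, Function.Bijective σ ∧ ∀ i, σ (a i) = b i

/-- Logically separable algebras in `Θ_n(P)`. -/
def LogicallySeparable (P : Type u) [Field P] (n : ℕ) (W : Type u) [NonUnitalRing W]
    [Module P W] : Prop :=
  ∀ (H : Type u) [NonUnitalRing H] [Module P H] [IsScalarTower P H H] [SMulCommClass P H H],
    IsNilpotent n H → Isotypic P W H → ∃ f : W →ₙₐ[P] H, Function.Bijective f

/-! ### Terms -/

section Terms

variable {P : Type u} [Field P] {M N : Type u} [NonUnitalRing M] [Module P M]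
  [NonUnitalRing N] [Module P N] {α : Type}

/-- The term `0`. -/
def T0 : (Lang P).Term α :=
  Term.func (L := Lang P) (l := 0) (show Op P 0 from Op.zero) Fin.elim0

/-- Scalar multiple of a term. -/
def Tsmul (c : P) (t : (Lang P).Term α) : (Lang P).Term α :=
  Term.func (L := Lang P) (l := 1) (show Op P 1 from Op.smul c) ![t]

/-- Sum of two terms. -/
def Tadd (s t : (Lang P).Term α) : (Lang P).Term α :=
  Term.func (L := Lang P) (l := 2) (show Op P 2 from Op.add) ![s, t]

/-- Product of two terms. -/
def Tmul (s t : (Lang P).Term α) : (Lang P).Term α :=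
  Term.func (L := Lang P) (l := 2) (show Op P 2 from Op.mul) ![s, t]

/-- Sum of finitely many terms. -/
def Tsum : (k : ℕ) → (Fin k → (Lang P).Term α) → (Lang P).Term α
  | 0, _ => T0
  | k + 1, f => Tadd (f 0) (Tsum k fun i => f i.succ)

theorem realize_T0 (v : α → M) : (T0 : (Lang P).Term α).realize v = 0 := rfl

theorem realize_Tsmul (c : P) (t : (Lang P).Term α) (v : α → M) :
    (Tsmul c t).realize v = c • t.realize v := rfl

theorem realize_Tadd (s t : (Lang P).Term α) (v : α → M) :
    (Tadd s t).realize v = s.realize v + t.realize v := rfl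

theorem realize_Tmul (s t : (Lang P).Term α) (v : α → M) :
    (Tmul s t).realize v = s.realize v * t.realize v := rfl

theorem realize_Tsum (k : ℕ) (f : Fin k → (Lang P).Term α) (v : α → M) :
    (Tsum k f).realize v = ∑ i, (f i).realize v := by
  induction k with
  | zero => simp [Tsum, realize_T0]
  | succ k ih => rw [Tsum, realize_Tadd, ih, Fin.sum_univ_succ]

theorem hom_realize (f : M →ₙₐ[P] N) (t : (Lang P).Term α) (v : α → M) :
    f (t.realize v) = t.realize (f ∘ v) := by
  induction t with
  | var a => rfl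
  | @func n g ts ih =>
    match n, g with
    | _, Op.zero => exact map_zero f
    | _, Op.neg =>
      change f (- (ts 0).realize v) = - (ts 0).realize (f ∘ v)
      rw [map_neg, ih]
    | _, Op.smul c =>
      change f (c • (ts 0).realize v) = c • (ts 0).realize (f ∘ v)
      rw [map_smul, ih]
    | _, Op.add =>
      change f ((ts 0).realize v + (ts 1).realize v) =
        (ts 0).realize (f ∘ v) + (ts 1).realize (f ∘ v)
      rw [map_add, ih, ih]
    | _, Op.mul =>
      change f ((ts 0).realize v * (ts 1).realize v) =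
        (ts 0).realize (f ∘ v) * (ts 1).realize (f ∘ v)
      rw [map_mul, ih, ih]

/-- The subalgebra of the values of terms. -/
def gen (P : Type u) [Field P] {M : Type u} [NonUnitalRing M] [Module P M] {α : Type}
    (v : α → M) : NonUnitalSubalgebra P M where
  carrier := {w | ∃ t : (Lang P).Term α, t.realize v = w}
  add_mem' := by
    rintro _ _ ⟨s, rfl⟩ ⟨t, rfl⟩
    exact ⟨Tadd s t, rfl⟩
  zero_mem' := ⟨T0, rfl⟩
  mul_mem' := by
    rintro _ _ ⟨s, rfl⟩ ⟨t, rfl⟩
    exact ⟨Tmul s t, rfl⟩
  smul_mem' := by
    rintro c _ ⟨s, rfl⟩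
    exact ⟨Tsmul c s, rfl⟩

theorem mem_gen {v : α → M} {w : M} : w ∈ gen P v ↔ ∃ t : (Lang P).Term α, t.realize v = w :=
  Iff.rfl

/-- The formula which says that `t` is a sum of `k` products. -/
noncomputable def SqF (k : ℕ) (t : (Lang P).Term α) : (Lang P).Formula α :=
  Formula.iExs (Fin k ⊕ Fin k) ((t.relabel Sum.inl).equal
    (Tsum k fun j => Tmul (Term.var (Sum.inr (Sum.inl j))) (Term.var (Sum.inr (Sum.inr j)))))

/-- Sums of `k` products. -/
def Sq (k : ℕ) (w : M) : Prop := ∃ a b : Fin k → M, w = ∑ j, a j * b j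

theorem realize_SqF (k : ℕ) (t : (Lang P).Term α) (v : α → M) :
    (SqF k t).Realize v ↔ Sq k (t.realize v) := by
  unfold SqF Sq
  rw [Formula.realize_iExs]
  simp only [Formula.realize_equal, realize_Tsum, realize_Tmul, Term.realize_relabel,
    Term.realize_var, Sum.elim_inr]
  constructor
  · rintro ⟨i, h⟩
    exact ⟨fun j => i (Sum.inl j), fun j => i (Sum.inr j), h⟩
  · rintro ⟨a, b, h⟩
    exact ⟨Sum.elim a b, h⟩

/-- The formula which defines the generating tuples (for `n ≥ 3`). -/
noncomputable def Gen (P : Type u) (k : ℕ) : (Lang P).Formula (Fin k) :=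
  (Formula.iInf fun i => ∼(SqF k (Term.var i))) ⊓
    Formula.iAlls (Fin k) (((Formula.iInf fun i : Fin k =>
      (Tmul (Term.var (Sum.inl i)) (Term.var (Sum.inr i))).equal
        (Tmul (Term.var (Sum.inr i)) (Term.var (Sum.inl i)))) ⊓
          SqF k (Tsum k fun i => Term.var (Sum.inr i))).imp
            (Formula.iInf fun i : Fin k => SqF k (Term.var (Sum.inr i))))

theorem realize_Gen (k : ℕ) (y : Fin k → M) : (Gen P k).Realize y ↔
    (∀ i, ¬ Sq k (y i)) ∧ ∀ z : Fin k → M, (∀ i, y i * z i = z i * y i) → Sq k (∑ i, z i) →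
      ∀ i, Sq k (z i) := by
  unfold Gen
  simp only [Formula.realize_inf, Formula.realize_iInf, Formula.realize_not, realize_SqF,
    Term.realize_var, Formula.realize_iAlls, Formula.realize_imp, Formula.realize_equal,
    realize_Tmul, realize_Tsum, Sum.elim_inl, Sum.elim_inr, and_imp]

end Terms

/-! ### Two test algebras -/

section Test

variable (P : Type u) [Field P] (k : ℕ)

/-- The vector space `P ^ k` with the zero multiplication. -/
def V0 : Type u := Fin k → P

instance : AddCommGroup (V0 P k) := inferInstanceAs (AddCommGroup (Fin k → P))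
instance : Module P (V0 P k) := inferInstanceAs (Module P (Fin k → P))

instance : NonUnitalRing (V0 P k) :=
  { (inferInstance : AddCommGroup (V0 P k)) with
    mul := fun _ _ => 0
    left_distrib := fun _ _ _ => (add_zero (0 : V0 P k)).symm
    right_distrib := fun _ _ _ => (add_zero (0 : V0 P k)).symm
    zero_mul := fun _ => rfl
    mul_zero := fun _ => rfl
    mul_assoc := fun _ _ _ => rfl }

theorem V0_mul (a b : V0 P k) : a * b = 0 := rfl

instance : IsScalarTower P (V0 P k) (V0 P k) := ⟨fun c _ _ => (smul_zero c).symm⟩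
instance : SMulCommClass P (V0 P k) (V0 P k) := ⟨fun c _ _ => smul_zero c⟩

/-- The standard basis. -/
noncomputable def bas : Module.Basis (Fin k) P (V0 P k) := Pi.basisFun P (Fin k)

/-- The standard basis vectors. -/
def e (i : Fin k) : V0 P k := (Pi.single i (1 : P) : Fin k → P)

theorem bas_apply (i : Fin k) : bas P k i = e P k i := Pi.basisFun_apply P (Fin k) i

theorem bas_repr (v : V0 P k) (i : Fin k) : (bas P k).repr v i = v i := rfl

theorem foldl_zero {H : Type u} [NonUnitalRing H] (l : List H) : l.foldl (· * ·) 0 = 0 := by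
  induction l with
  | nil => rfl
  | cons b l ih => rw [List.foldl_cons, zero_mul, ih]

theorem V0_nilpotent {n : ℕ} (hn : 2 ≤ n) : IsNilpotent n (V0 P k) := by
  intro a l hl
  match l with
  | [] => simp at hl; omega
  | b :: l =>
    rw [List.foldl_cons, V0_mul]
    exact foldl_zero l

/-- `V ⊕ (V ⊗ V)`, where `V = P ^ k`. -/
def V1 : Type u := (Fin k → P) × (Fin k → Fin k → P)

instance : AddCommGroup (V1 P k) :=
  inferInstanceAs (AddCommGroup ((Fin k → P) × (Fin k → Fin k → P)))
instance : Module P (V1 P k) := inferInstanceAs (Module P ((Fin k → P) × (Fin k → Fin k → P)))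

instance : Mul (V1 P k) := ⟨fun a b => (0, fun i j => a.1 i * b.1 j)⟩

theorem V1_mul_fst (a b : V1 P k) : (a * b).1 = 0 := rfl
theorem V1_mul_snd (a b : V1 P k) : (a * b).2 = fun i j => a.1 i * b.1 j := rfl
theorem V1_add_fst (a b : V1 P k) : (a + b).1 = a.1 + b.1 := rfl
theorem V1_add_snd (a b : V1 P k) : (a + b).2 = a.2 + b.2 := rfl
theorem V1_smul_fst (c : P) (b : V1 P k) : (c • b).1 = c • b.1 := rfl
theorem V1_smul_snd (c : P) (b : V1 P k) : (c • b).2 = c • b.2 := rfl
theorem V1_zero_fst : (0 : V1 P k).1 = 0 := rfl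
theorem V1_zero_snd : (0 : V1 P k).2 = 0 := rfl

instance : NonUnitalRing (V1 P k) :=
  { (inferInstance : AddCommGroup (V1 P k)), (inferInstance : Mul (V1 P k)) with
    left_distrib := fun a b c => by
      apply Prod.ext
      · simp [V1_mul_fst, V1_add_fst]
      · funext i j
        simp only [V1_mul_snd, V1_add_snd, V1_add_fst, Pi.add_apply]
        ring
    right_distrib := fun a b c => by
      apply Prod.ext
      · simp [V1_mul_fst, V1_add_fst]
      · funext i j
        simp only [V1_mul_snd, V1_add_snd, V1_add_fst, Pi.add_apply]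
        ring
    zero_mul := fun a => by
      apply Prod.ext
      · rfl
      · funext i j
        simp [V1_mul_snd, V1_zero_fst, V1_zero_snd]
    mul_zero := fun a => by
      apply Prod.ext
      · rfl
      · funext i j
        simp [V1_mul_snd, V1_zero_fst, V1_zero_snd]
    mul_assoc := fun a b c => by
      apply Prod.ext
      · rfl
      · funext i j
        simp [V1_mul_snd, V1_mul_fst] }

instance : IsScalarTower P (V1 P k) (V1 P k) := ⟨fun c a b => by
  apply Prod.ext
  · simp only [smul_eq_mul, V1_mul_fst, V1_smul_fst, smul_zero]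
  · funext i j
    simp only [smul_eq_mul, V1_mul_snd, V1_smul_snd, V1_smul_fst, Pi.smul_apply]
    ring⟩

instance : SMulCommClass P (V1 P k) (V1 P k) := ⟨fun c a b => by
  apply Prod.ext
  · simp only [smul_eq_mul, V1_mul_fst, V1_smul_fst, smul_zero]
  · funext i j
    simp only [smul_eq_mul, V1_mul_snd, V1_smul_snd, V1_smul_fst, Pi.smul_apply]
    ring⟩

theorem V1_nilpotent {n : ℕ} (hn : 3 ≤ n) : IsNilpotent n (V1 P k) := by
  intro a l hl
  match l with
  | [] => simp at hl; omega
  | [b] => simp at hl; omega
  | b :: c :: l =>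
    rw [List.foldl_cons, List.foldl_cons]
    have h : a * b * c = 0 := by
      apply Prod.ext
      · rfl
      · funext i j
        simp [V1_mul_snd, V1_mul_fst, V1_zero_snd]
    rw [h]
    exact foldl_zero l

end Test

/-! ### Generation -/

section Free

variable {P : Type u} [Field P] {n k : ℕ} {W : Type u} [NonUnitalRing W] [Module P W]
  [IsScalarTower P W W] [SMulCommClass P W W]

theorem foldl_coe (A : NonUnitalSubalgebra P W) (l : List A) (a : A) :
    ((l.foldl (· * ·) a : A) : W) = (l.map (fun b : A => (b : W))).foldl (· * ·) (a : W) := by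
  induction l generalizing a with
  | nil => rfl
  | cons b l ih => rw [List.map_cons, List.foldl_cons, List.foldl_cons, ih]; rfl

theorem mem_of_free {x : Fin k → W} (hx : IsFree P n x) (hW : IsNilpotent n W)
    (A : NonUnitalSubalgebra P W) (hA : ∀ i, x i ∈ A) (w : W) : w ∈ A := by
  have hnil : IsNilpotent n A := by
    intro a l hl
    apply Subtype.ext
    rw [foldl_coe]
    exact hW _ _ (by simpa using hl)
  obtain ⟨f, hf, -⟩ := hx A hnil fun i => ⟨x i, hA i⟩
  obtain ⟨g, hg, huniq⟩ := hx W hW x
  have h1 : (NonUnitalSubalgebraClass.subtype A).comp f = g := by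
    apply huniq
    intro i
    simp [hf i]
  have h2 : NonUnitalAlgHom.id P W = g := by
    apply huniq
    intro i
    rfl
  have h3 : ((f w : A) : W) = w := by
    have := congrArg (fun φ : W →ₙₐ[P] W => φ w) (h1.trans h2.symm)
    simpa using this
  rw [← h3]
  exact (f w).2

theorem exists_term {x : Fin k → W} (hx : IsFree P n x) (hW : IsNilpotent n W) (w : W) :
    ∃ t : (Lang P).Term (Fin k), t.realize x = w :=
  mem_of_free hx hW (gen P x) (fun i => ⟨Term.var i, rfl⟩) w

/-- The projection to `P ^ k`. -/
theorem exists_proj {x : Fin k → W} (hx : IsFree P n x) (hn : 2 ≤ n) :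
    ∃ π : W →ₙₐ[P] V0 P k, ∀ i, π (x i) = e P k i :=
  (hx (V0 P k) (V0_nilpotent P k hn) fun i => e P k i).exists

/-- The left nested products of `m + 1` elements. -/
def J (P : Type u) [Field P] (W : Type u) [NonUnitalRing W] [Module P W] (m : ℕ) :
    Submodule P W :=
  Submodule.span P {w | ∃ (a : W) (l : List W), l.length = m ∧ w = l.foldl (· * ·) a}

theorem J_mul {m : ℕ} {b : W} (hb : b ∈ J P W m) (c : W) : b * c ∈ J P W (m + 1) := by
  induction hb using Submodule.span_induction with
  | mem w hw =>
    obtain ⟨a, l, hl, rfl⟩ := hw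
    apply Submodule.subset_span
    refine ⟨a, l ++ [c], by simp [hl], by simp⟩
  | zero => rw [zero_mul]; exact Submodule.zero_mem _
  | add u v _ _ hu hv => rw [add_mul]; exact Submodule.add_mem _ hu hv
  | smul r u _ hu => rw [smul_mul_assoc]; exact Submodule.smul_mem _ _ hu

theorem J_succ_le {m : ℕ} (S : Submodule P W) (h : ∀ b ∈ J P W m, ∀ c, b * c ∈ S) :
    J P W (m + 1) ≤ S := by
  unfold J
  rw [Submodule.span_le]
  rintro w ⟨a, l, hl, rfl⟩
  rcases List.eq_nil_or_concat l with rfl | ⟨l', c, rfl⟩
  · simp at hl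
  · rw [List.concat_eq_append, List.foldl_append]
    exact h _ (Submodule.subset_span ⟨a, l', by simpa using hl, rfl⟩) c

theorem J_zero : J P W 0 = ⊤ := by
  rw [eq_top_iff]
  intro w _
  exact Submodule.subset_span ⟨w, [], rfl, rfl⟩

theorem J_last (hW : IsNilpotent (n + 1) W) : J P W n = ⊥ := by
  rw [eq_bot_iff]
  unfold J
  rw [Submodule.span_le]
  rintro w ⟨a, l, hl, rfl⟩
  exact hW a l (by rw [hl])

theorem mul_mem_J_one (a b : W) : a * b ∈ J P W 1 :=
  J_mul (by rw [J_zero]; trivial) b

/-- A subalgebra which together with the products spans everything is everything. -/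
theorem top_of_sup (hn : 2 ≤ n) (hW : IsNilpotent n W) (A : NonUnitalSubalgebra P W)
    (h : A.toSubmodule ⊔ J P W 1 = ⊤) (w : W) : w ∈ A := by
  have key : ∀ m : ℕ, A.toSubmodule ⊔ J P W (m + 1) = ⊤ := by
    intro m
    induction m with
    | zero => exact h
    | succ m ih =>
      rw [eq_top_iff, ← ih]
      apply sup_le le_sup_left
      apply J_succ_le
      intro b hb c
      have hb' : b ∈ A.toSubmodule ⊔ J P W (m + 1) := by rw [ih]; trivial
      have hc' : c ∈ A.toSubmodule ⊔ J P W 1 := by rw [h]; trivial
      obtain ⟨b₁, hb₁, b₂, hb₂, hbe⟩ := Submodule.mem_sup.1 hb'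
      obtain ⟨c₁, hc₁, c₂, hc₂, hce⟩ := Submodule.mem_sup.1 hc'
      have h1 : b * c = b₁ * c₁ + (b₂ * c₁ + b * c₂) := by
        rw [← hce, mul_add, ← add_assoc, ← add_mul, hbe]
      rw [h1]
      apply Submodule.add_mem_sup
      · exact A.mul_mem hb₁ hc₁
      · apply Submodule.add_mem
        · exact J_mul hb₂ c₁
        · clear h1 hce
          induction hc₂ using Submodule.span_induction with
          | mem w hw =>
            obtain ⟨d, l, hl, rfl⟩ := hw
            match l, hl with
            | [e], _ =>
              simp only [List.foldl_cons, List.foldl_nil]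
              rw [← mul_assoc]
              exact J_mul (J_mul hb d) e
          | zero => rw [mul_zero]; exact Submodule.zero_mem _
          | add u v _ _ hu hv => rw [mul_add]; exact Submodule.add_mem _ hu hv
          | smul r u _ hu => rw [mul_smul_comm]; exact Submodule.smul_mem _ _ hu
  obtain ⟨m, rfl⟩ : ∃ m, n = m + 2 := ⟨n - 2, by omega⟩
  have h2 := key m
  rw [J_last hW, sup_bot_eq] at h2
  have : w ∈ A.toSubmodule := by rw [h2]; trivial
  exact this

theorem proj_mul {π : W →ₙₐ[P] V0 P k} (a b : W) : π (a * b) = 0 := by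
  rw [map_mul, V0_mul]

/-- The kernel of the projection consists of the sums of `k` products. -/
theorem sub_mem {x : Fin k → W} (hx : IsFree P n x) (hW : IsNilpotent n W)
    {π : W →ₙₐ[P] V0 P k} (hπ : ∀ i, π (x i) = e P k i) (w : W) :
    ∃ c : Fin k → W, w - ∑ i, (π w : Fin k → P) i • x i = ∑ i, x i * c i := by
  classical
  -- the sums `∑ x i * c i` form a right ideal which contains all products
  have hprod : ∀ a b : W, ∃ c : Fin k → W, a * b = ∑ i, x i * c i := by
    let A : NonUnitalSubalgebra P W :=
      { carrier := {a | ∀ b : W, ∃ c : Fin k → W, a * b = ∑ i, x i * c i}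
        add_mem' := by
          intro a a' ha ha' b
          obtain ⟨c, hc⟩ := ha b
          obtain ⟨c', hc'⟩ := ha' b
          exact ⟨c + c', by rw [add_mul, hc, hc', ← Finset.sum_add_distrib]; simp [mul_add]⟩
        zero_mem' := fun b => ⟨0, by simp⟩
        mul_mem' := by
          intro a a' ha _ b
          obtain ⟨c, hc⟩ := ha (a' * b)
          exact ⟨c, by rw [mul_assoc, hc]⟩
        smul_mem' := by
          intro r a ha b
          obtain ⟨c, hc⟩ := ha b
          exact ⟨r • c, by rw [smul_mul_assoc, hc, Finset.smul_sum]; simp [mul_smul_comm]⟩ }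
    intro a b
    refine mem_of_free hx hW A (fun i b => ⟨Pi.single i b, ?_⟩) a b
    rw [Finset.sum_eq_single i]
    · simp
    · intro j _ hj
      simp [Pi.single_eq_of_ne hj]
    · simp
  let B : NonUnitalSubalgebra P W :=
    { carrier := {w | ∃ c : Fin k → W, w - ∑ i, (π w : Fin k → P) i • x i = ∑ i, x i * c i}
      add_mem' := by
        rintro a b ⟨c, hc⟩ ⟨d, hd⟩
        refine ⟨c + d, ?_⟩
        have h1 : ∑ i, (π (a + b) : Fin k → P) i • x i =
            ∑ i, (π a : Fin k → P) i • x i + ∑ i, (π b : Fin k → P) i • x i := by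
          rw [← Finset.sum_add_distrib]
          apply Finset.sum_congr rfl
          intro i _
          rw [map_add, ← add_smul]
          rfl
        have h2 : ∑ i, x i * (c + d) i = ∑ i, x i * c i + ∑ i, x i * d i := by
          rw [← Finset.sum_add_distrib]
          simp [mul_add]
        rw [h1, h2, ← hc, ← hd]
        abel
      zero_mem' := ⟨0, by
        rw [map_zero]
        have : ∀ i, (0 : V0 P k) i = (0 : P) := fun i => rfl
        simp [this]⟩
      mul_mem' := by
        intro a b _ _
        obtain ⟨c, hc⟩ := hprod a b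
        refine ⟨c, ?_⟩
        have : ∀ i, (0 : V0 P k) i = (0 : P) := fun i => rfl
        rw [proj_mul, hc]
        simp [this]
      smul_mem' := by
        rintro r a ⟨c, hc⟩
        refine ⟨r • c, ?_⟩
        have h1 : ∑ i, (π (r • a) : Fin k → P) i • x i = r • ∑ i, (π a : Fin k → P) i • x i := by
          rw [Finset.smul_sum]
          apply Finset.sum_congr rfl
          intro i _
          rw [map_smul, smul_smul]
          rfl
        have h2 : ∑ i, x i * (r • c) i = r • ∑ i, x i * c i := by
          rw [Finset.smul_sum]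
          simp [mul_smul_comm]
        rw [h1, h2, ← hc, smul_sub] }
  refine mem_of_free hx hW B (fun i => ⟨0, ?_⟩) w
  rw [hπ i, Finset.sum_eq_single i]
  · simp [e]
  · intro j _ hj
    rw [e, Pi.single_eq_of_ne hj, zero_smul]
  · simp

theorem sq_iff {x : Fin k → W} (hx : IsFree P n x) (hW : IsNilpotent n W)
    {π : W →ₙₐ[P] V0 P k} (hπ : ∀ i, π (x i) = e P k i) (w : W) :
    Sq k w ↔ π w = 0 := by
  constructor
  · rintro ⟨a, b, rfl⟩
    rw [map_sum]
    exact Finset.sum_eq_zero fun i _ => proj_mul _ _
  · intro h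
    obtain ⟨c, hc⟩ := sub_mem hx hW hπ w
    rw [h] at hc
    refine ⟨x, c, ?_⟩
    rw [← hc]
    have : ∀ i, (0 : V0 P k) i = (0 : P) := fun i => rfl
    simp [this]

/-- A subalgebra which contains elements whose projections span `P ^ k` is everything. -/
theorem top_of_span {x : Fin k → W} (hx : IsFree P n x) (hn : 2 ≤ n) (hW : IsNilpotent n W)
    {π : W →ₙₐ[P] V0 P k} (hπ : ∀ i, π (x i) = e P k i)
    (y : Fin k → W) (hy : ⊤ ≤ Submodule.span P (Set.range fun i => π (y i)))
    (A : NonUnitalSubalgebra P W) (hA : ∀ i, y i ∈ A) (w : W) : w ∈ A := by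
  apply top_of_sup hn hW
  rw [eq_top_iff]
  intro w _
  obtain ⟨c, hc⟩ := (Submodule.mem_span_range_iff_exists_fun P).1 (hy (trivial : π w ∈ _))
  have h1 : Sq k (w - ∑ i, c i • y i) := by
    rw [sq_iff hx hW hπ, map_sub, map_sum, sub_eq_zero, ← hc]
    simp
  obtain ⟨a, b, hab⟩ := h1
  rw [← add_sub_cancel (∑ i, c i • y i) w, hab]
  apply Submodule.add_mem_sup
  · exact Submodule.sum_mem _ fun i _ => A.toSubmodule.smul_mem _ (hA i)
  · exact Submodule.sum_mem _ fun i _ => mul_mem_J_one _ _

/-- An endomorphism which acts injectively modulo the products is an automorphism. -/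
theorem bijective_of_linearIndependent {x : Fin k → W} (hx : IsFree P n x) (hn : 2 ≤ n)
    (hW : IsNilpotent n W)
    {π : W →ₙₐ[P] V0 P k} (hπ : ∀ i, π (x i) = e P k i)
    (σ : W →ₙₐ[P] W) (hσ : LinearIndependent P fun i => π (σ (x i))) :
    Function.Bijective σ := by
  classical
  have hdim : Module.finrank P (V0 P k) = k := by
    change Module.finrank P (Fin k → P) = k
    simp
  have : Module.Finite P (V0 P k) := inferInstanceAs (Module.Finite P (Fin k → P))
  have hspan : ∀ v : Fin k → V0 P k, LinearIndependent P v →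
      ⊤ ≤ Submodule.span P (Set.range v) := by
    intro v hv
    rw [hv.span_eq_top_of_card_eq_finrank' (by rw [hdim, Fintype.card_fin])]
  -- the linear maps on `P ^ k`
  have hlin : ∀ φ : W →ₙₐ[P] W, ∃ M : V0 P k →ₗ[P] V0 P k, ∀ w, π (φ w) = M (π w) := by
    intro φ
    let M : V0 P k →ₗ[P] V0 P k := (bas P k).constr P fun i => π (φ (x i))
    have hM : ∀ i, M (e P k i) = π (φ (x i)) := by
      intro i
      have := (bas P k).constr_basis P (fun i => π (φ (x i))) i
      rw [bas_apply] at this
      exact this
    let M' : V0 P k →ₙₐ[P] V0 P k :=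
      { toFun := M
        map_smul' := fun c a => map_smul M c a
        map_zero' := map_zero M
        map_add' := map_add M
        map_mul' := fun a b => by
          rw [V0_mul, V0_mul]
          exact map_zero M }
    refine ⟨M, fun w => ?_⟩
    obtain ⟨g, hg, huniq⟩ := hx (V0 P k) (V0_nilpotent P k hn) fun i => π (φ (x i))
    have h1 : π.comp φ = g := huniq _ fun i => rfl
    have h2 : M'.comp π = g := huniq _ fun i => by
      change M (π (x i)) = _
      rw [hπ, hM]
    have := congrArg (fun ψ : W →ₙₐ[P] V0 P k => ψ w) (h1.trans h2.symm)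
    exact this
  -- the inverse of `σ`
  have hterm : ∀ i, ∃ t : (Lang P).Term (Fin k), t.realize (fun i => σ (x i)) = x i := fun i =>
    top_of_span hx hn hW hπ (fun i => σ (x i)) (hspan _ hσ) (gen P fun i => σ (x i))
      (fun j => ⟨Term.var j, rfl⟩) (x i)
  choose s hs using hterm
  obtain ⟨τ, hτ, -⟩ := hx W hW fun i => (s i).realize x
  have hστ : ∀ w, σ (τ w) = w := by
    obtain ⟨g, hg, huniq⟩ := hx W hW x
    have h1 : σ.comp τ = g := huniq _ fun i => by
      change σ (τ (x i)) = x i
      rw [hτ i, hom_realize]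
      exact hs i
    have h2 : NonUnitalAlgHom.id P W = g := huniq _ fun i => rfl
    intro w
    exact congrArg (fun ψ : W →ₙₐ[P] W => ψ w) (h1.trans h2.symm)
  obtain ⟨Mσ, hMσ⟩ := hlin σ
  obtain ⟨Mτ, hMτ⟩ := hlin τ
  have hπsurj : Function.Surjective π := by
    intro v
    refine ⟨∑ i, (v : Fin k → P) i • x i, ?_⟩
    rw [map_sum]
    simp only [map_smul, hπ]
    have h1 := (bas P k).sum_repr v
    simp only [bas_apply, bas_repr] at h1
    exact h1
  have hMM : ∀ v, Mσ (Mτ v) = v := by
    intro v
    obtain ⟨w, rfl⟩ := hπsurj v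
    rw [← hMτ, ← hMσ, hστ]
  have hMτinj : Function.Injective Mτ := Function.LeftInverse.injective hMM
  have hτind : LinearIndependent P fun i => π (τ (x i)) := by
    have h1 : (fun i => π (τ (x i))) = Mτ ∘ bas P k := by
      funext i
      rw [hMτ, hπ, Function.comp_apply, bas_apply]
    rw [h1]
    exact (bas P k).linearIndependent.map' Mτ (LinearMap.ker_eq_bot.2 hMτinj)
  have hτsurj : Function.Surjective τ := by
    intro w
    exact top_of_span hx hn hW hπ (fun i => τ (x i)) (hspan _ hτind) (NonUnitalAlgHom.range τ)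
      (fun i => ⟨x i, rfl⟩) w
  refine ⟨?_, fun w => ⟨τ w, hστ w⟩⟩
  intro u v huv
  obtain ⟨u', rfl⟩ := hτsurj u
  obtain ⟨v', rfl⟩ := hτsurj v
  rw [hστ, hστ] at huv
  rw [huv]

theorem eq_zero_V0 {v : V0 P k} (h : ∀ i, v i = (0 : P)) : v = 0 := funext h

/-- For `n ≥ 3` the tuples with the property `Gen` are those which are independent modulo the
products. -/
theorem gen_iff {x : Fin k → W} (hx : IsFree P n x) (hn : 3 ≤ n) (hW : IsNilpotent n W)
    {π : W →ₙₐ[P] V0 P k} (hπ : ∀ i, π (x i) = e P k i) (y : Fin k → W) :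
    (Gen P k).Realize y ↔ LinearIndependent P fun i => π (y i) := by
  rw [realize_Gen, Fintype.linearIndependent_iff]
  simp only [sq_iff hx hW hπ]
  constructor
  · rintro ⟨h1, h2⟩ g hg i
    have h3 := h2 (fun i => g i • y i) (fun i => by rw [mul_smul_comm, smul_mul_assoc]) (by
      rw [map_sum]
      simpa using hg) i
    rw [map_smul] at h3
    exact (smul_eq_zero.1 h3).resolve_right (h1 i)
  · intro h
    have hne : ∀ i, π (y i) ≠ 0 := by
      intro i h0
      have h1 := h (Pi.single i 1) (by
        rw [Finset.sum_eq_single i]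
        · rw [h0, smul_zero]
        · intro j _ hj
          rw [Pi.single_eq_of_ne hj, zero_smul]
        · simp) i
      simp at h1
    refine ⟨hne, fun z hz hsum => ?_⟩
    -- the projection to `V ⊕ (V ⊗ V)`
    obtain ⟨π₂, hπ₂, -⟩ := hx (V1 P k) (V1_nilpotent P k hn) fun i => ((e P k i : Fin k → P), 0)
    have hfst : ∀ w, (π₂ w).1 = π w := by
      let F : V1 P k →ₙₐ[P] V0 P k :=
        { toFun := fun v => v.1
          map_smul' := fun c a => rfl
          map_zero' := rfl
          map_add' := fun a b => rfl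
          map_mul' := fun a b => rfl }
      obtain ⟨g, hg, huniq⟩ := hx (V0 P k) (V0_nilpotent P k (by omega)) fun i => e P k i
      have h1 : F.comp π₂ = g := huniq _ fun i => by
        change (π₂ (x i)).1 = _
        rw [hπ₂]
      have h2 : π = g := huniq _ hπ
      intro w
      exact congrArg (fun ψ : W →ₙₐ[P] V0 P k => ψ w) (h1.trans h2.symm)
    have hcomm : ∀ i j l, (π (y i) j : P) * π (z i) l = π (z i) j * π (y i) l := by
      intro i j l
      have h1 := congrArg (fun w => (π₂ w).2 j l) (hz i)
      simp only [map_mul, V1_mul_snd, hfst] at h1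
      exact h1
    have hprop : ∀ i, ∃ c : P, π (z i) = c • π (y i) := by
      intro i
      obtain ⟨j, hj⟩ : ∃ j, (π (y i) j : P) ≠ 0 := by
        by_contra hcon
        push Not at hcon
        exact hne i (eq_zero_V0 hcon)
      refine ⟨π (z i) j / π (y i) j, ?_⟩
      funext l
      change (π (z i) l : P) = (π (z i) j / π (y i) j) * π (y i) l
      rw [div_mul_eq_mul_div, eq_div_iff hj, ← hcomm i j l, mul_comm]
    choose c hc using hprop
    have h1 := h c (by
      rw [map_sum] at hsum
      rw [← hsum]
      exact Finset.sum_congr rfl fun i _ => (hc i).symm)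
    intro i
    rw [hc i, h1 i, zero_smul]

end Free

/-! ### Linear algebra -/

theorem exists_linearEquiv {P V : Type*} [Field P] [AddCommGroup V] [Module P V]
    [Module.Finite P V] {m : ℕ} (a b : Fin m → V)
    (h : ∀ c : Fin m → P, ∑ i, c i • a i = 0 ↔ ∑ i, c i • b i = 0) :
    ∃ E : V ≃ₗ[P] V, ∀ i, E (a i) = b i := by
  classical
  let A : (Fin m → P) →ₗ[P] V := Fintype.linearCombination P a
  let B : (Fin m → P) →ₗ[P] V := Fintype.linearCombination P b
  have hker : LinearMap.ker A = LinearMap.ker B := by
    ext c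
    rw [LinearMap.mem_ker, LinearMap.mem_ker]
    exact h c
  let E₁ : LinearMap.range A ≃ₗ[P] LinearMap.range B :=
    A.quotKerEquivRange.symm ≪≫ₗ Submodule.quotEquivOfEq _ _ hker ≪≫ₗ B.quotKerEquivRange
  have hE₁ : ∀ c, (E₁ ⟨A c, ⟨c, rfl⟩⟩ : V) = B c := by
    intro c
    have h1 : A.quotKerEquivRange.symm ⟨A c, ⟨c, rfl⟩⟩ = Submodule.Quotient.mk c := by
      rw [LinearEquiv.symm_apply_eq]
      rfl
    change (B.quotKerEquivRange (Submodule.quotEquivOfEq _ _ hker
      (A.quotKerEquivRange.symm ⟨A c, ⟨c, rfl⟩⟩)) : V) = B c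
    rw [h1]
    rfl
  obtain ⟨A', hA'⟩ := (LinearMap.range A).exists_isCompl
  obtain ⟨B', hB'⟩ := (LinearMap.range B).exists_isCompl
  have hdim : Module.finrank P A' = Module.finrank P B' := by
    have h1 := Submodule.finrank_add_eq_of_isCompl hA'
    have h2 := Submodule.finrank_add_eq_of_isCompl hB'
    have h3 := E₁.finrank_eq
    omega
  let E₂ : A' ≃ₗ[P] B' := LinearEquiv.ofFinrankEq _ _ hdim
  refine ⟨(Submodule.prodEquivOfIsCompl _ _ hA').symm ≪≫ₗ (E₁.prodCongr E₂) ≪≫ₗ
    Submodule.prodEquivOfIsCompl _ _ hB', fun i => ?_⟩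
  have hai : A (Pi.single i 1) = a i := by
    simp [A, Fintype.linearCombination_apply, Pi.single_apply]
  have hbi : B (Pi.single i 1) = b i := by
    simp [B, Fintype.linearCombination_apply, Pi.single_apply]
  have h1 : (Submodule.prodEquivOfIsCompl _ _ hA').symm (a i) =
      (⟨A (Pi.single i 1), ⟨_, rfl⟩⟩, 0) := by
    rw [LinearEquiv.symm_apply_eq, Submodule.coe_prodEquivOfIsCompl']
    simp [hai]
  rw [LinearEquiv.trans_apply, LinearEquiv.trans_apply, h1, LinearEquiv.prodCongr_apply,
    Submodule.coe_prodEquivOfIsCompl']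
  simp only [map_zero, Submodule.coe_zero, add_zero]
  rw [hE₁, hbi]

/-! ### The result -/

section Main

variable {P : Type u} [Field P] {n k : ℕ} {W : Type u} [NonUnitalRing W] [Module P W]
  [IsScalarTower P W W] [SMulCommClass P W W]

theorem sameType_of_bijective {M N : Type u} [NonUnitalRing M] [Module P M] [NonUnitalRing N]
    [Module P N] (f : M →ₙₐ[P] N) (hf : Function.Bijective f) {m : ℕ} (a : Fin m → M) :
    SameType P a (f ∘ a) := by
  let E : M ≃[Lang P] N :=
    { Equiv.ofBijective f hf with
      map_fun' := by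
        intro n g v
        match n, g with
        | _, Op.zero => exact map_zero f
        | _, Op.neg => exact map_neg f (v 0)
        | _, Op.smul c => exact map_smul f c (v 0)
        | _, Op.add => exact map_add f (v 0) (v 1)
        | _, Op.mul => exact map_mul f (v 0) (v 1)
      map_rel' := fun {_} r => PEmpty.elim r }
  intro φ
  exact (StrongHomClass.realize_formula E φ (v := a)).symm

theorem homogeneous_of_three_le {x : Fin k → W} (hx : IsFree P n x) (hn : 3 ≤ n)
    (hW : IsNilpotent n W) {m : ℕ} (a b : Fin m → W) (hab : SameType P a b) :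
    ∃ σ : W →ₙₐ[P] W, Function.Bijective σ ∧ ∀ i, σ (a i) = b i := by
  obtain ⟨π, hπ⟩ := exists_proj hx (show 2 ≤ n by omega)
  choose t ht using fun i => exists_term hx hW (a i)
  let φ : (Lang P).Formula (Fin m) := Formula.iExs (Fin k)
    ((Gen P k).relabel Sum.inr ⊓ Formula.iInf fun i : Fin m =>
      (Term.var (Sum.inl i) : (Lang P).Term (Fin m ⊕ Fin k)).equal ((t i).relabel Sum.inr))
  have hφ : ∀ c : Fin m → W, φ.Realize c ↔
      ∃ y : Fin k → W, (Gen P k).Realize y ∧ ∀ i, c i = (t i).realize y := by
    intro c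
    simp only [φ, Formula.realize_iExs, Formula.realize_inf, Formula.realize_relabel,
      Formula.realize_iInf, Formula.realize_equal, Term.realize_var, Term.realize_relabel,
      Sum.elim_inl, Sum.elim_comp_inr]
  have h1 : φ.Realize a := by
    rw [hφ]
    refine ⟨x, ?_, fun i => (ht i).symm⟩
    rw [gen_iff hx hn hW hπ]
    have h2 : (fun i => π (x i)) = bas P k := by
      funext i
      rw [hπ, bas_apply]
    rw [h2]
    exact (bas P k).linearIndependent
  obtain ⟨y, hy, hby⟩ := (hφ b).1 ((hab φ).1 h1)
  obtain ⟨σ, hσ, -⟩ := hx W hW y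
  refine ⟨σ, ?_, fun i => ?_⟩
  · apply bijective_of_linearIndependent hx (by omega) hW hπ
    simp only [hσ]
    exact (gen_iff hx hn hW hπ y).1 hy
  · rw [← ht i, hom_realize, hby i]
    congr 1
    funext j
    exact hσ j

theorem homogeneous_two {x : Fin k → W} (hx : IsFree P 2 x)
    (hW : IsNilpotent 2 W) {m : ℕ} (a b : Fin m → W) (hab : SameType P a b) :
    ∃ σ : W →ₙₐ[P] W, Function.Bijective σ ∧ ∀ i, σ (a i) = b i := by
  have hmul : ∀ u v : W, u * v = 0 := fun u v => hW u [v] rfl
  have hfin : Module.Finite P W := by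
    let A : NonUnitalSubalgebra P W :=
      { Submodule.span P (Set.range x) with
        mul_mem' := by
          intro u v _ _
          rw [hmul]
          exact Submodule.zero_mem _ }
    have h1 : ∀ w, w ∈ Submodule.span P (Set.range x) := fun w =>
      mem_of_free hx hW A (fun i => Submodule.subset_span ⟨i, rfl⟩) w
    refine ⟨⟨(Set.finite_range x).toFinset, ?_⟩⟩
    rw [Set.Finite.coe_toFinset, eq_top_iff]
    intro w _
    exact h1 w
  obtain ⟨E, hE⟩ := exists_linearEquiv a b fun c => by
    let φ : (Lang P).Formula (Fin m) :=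
      (Tsum m fun i => Tsmul (c i) (Term.var i)).equal T0
    have h1 := hab φ
    simpa only [φ, Formula.realize_equal, realize_Tsum, realize_Tsmul, Term.realize_var,
      realize_T0] using h1
  exact ⟨{ toFun := E
           map_smul' := fun c u => map_smul E c u
           map_zero' := map_zero E
           map_add' := map_add E
           map_mul' := fun u v => by
             rw [hmul, hmul]
             exact map_zero E }, E.bijective, hE⟩

/-- A tuple of the same type as the tuple of the free generators generates. -/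
theorem generates {x : Fin k → W} (hx : IsFree P n x) (hn : 2 ≤ n) (hW : IsNilpotent n W)
    (y : Fin k → W) (hy : SameType P x y) (w : W) :
    ∃ t : (Lang P).Term (Fin k), t.realize y = w := by
  obtain ⟨π, hπ⟩ := exists_proj hx hn
  have hli : LinearIndependent P fun i => π (y i) := by
    rw [Fintype.linearIndependent_iff]
    intro g hg
    have h1 := hy (SqF k (Tsum k fun i => Tsmul (g i) (Term.var i)))
    simp only [realize_SqF, realize_Tsum, realize_Tsmul, Term.realize_var, sq_iff hx hW hπ] at h1
    have h2 : π (∑ i, g i • y i) = 0 := by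
      rw [map_sum]
      simpa using hg
    have h3 := h1.2 h2
    rw [map_sum] at h3
    simp only [map_smul, hπ, ← bas_apply] at h3
    exact Fintype.linearIndependent_iff.1 (bas P k).linearIndependent g h3
  have hdim : Module.finrank P (V0 P k) = k := by
    change Module.finrank P (Fin k → P) = k
    simp
  have : Module.Finite P (V0 P k) := inferInstanceAs (Module.Finite P (Fin k → P))
  refine top_of_span hx hn hW hπ y ?_ (gen P y) (fun j => ⟨Term.var j, rfl⟩) w
  rw [hli.span_eq_top_of_card_eq_finrank' (by rw [hdim, Fintype.card_fin])]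

theorem separable {x : Fin k → W} (hx : IsFree P n x) (hn : 2 ≤ n) (hW : IsNilpotent n W) :
    LogicallySeparable P n W := by
  intro H _ _ _ _ hH hiso
  -- a tuple of `H` of the type of `x`
  obtain ⟨h, hh⟩ : ∃ h : Fin k → H, SameType P x h := by
    rcases Nat.eq_zero_or_pos k with rfl | hk
    · obtain ⟨b, hb⟩ := (hiso 1 le_rfl).1 fun _ => (0 : W)
      refine ⟨Fin.elim0, fun φ => ?_⟩
      have h1 := hb (φ.relabel Fin.elim0)
      rw [Formula.realize_relabel, Formula.realize_relabel] at h1
      rw [Subsingleton.elim x ((fun _ : Fin 1 => (0 : W)) ∘ Fin.elim0), h1,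
        Subsingleton.elim (b ∘ Fin.elim0) Fin.elim0]
    · exact (hiso k hk).1 x
  obtain ⟨f, hf, -⟩ := hx H hH h
  have hfreal : ∀ t : (Lang P).Term (Fin k), f (t.realize x) = t.realize h := by
    intro t
    rw [hom_realize]
    congr 1
    funext i
    exact hf i
  refine ⟨f, ?_, ?_⟩
  · rw [injective_iff_map_eq_zero]
    intro w hw
    obtain ⟨t, rfl⟩ := exists_term hx hW w
    rw [hfreal] at hw
    have h1 := hh (t.equal T0)
    rw [Formula.realize_equal, Formula.realize_equal] at h1
    exact h1.2 hw
  · intro g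
    obtain ⟨c, hc⟩ := (hiso (k + 1) (by omega)).2 (Fin.snoc h g : Fin (k + 1) → H)
    have hcastH : (Fin.snoc h g : Fin (k + 1) → H) ∘ Fin.castSucc = h := by
      funext i
      simp
    have h1 : SameType P x (c ∘ Fin.castSucc) := by
      intro φ
      rw [hh φ, ← Formula.realize_relabel, hc, Formula.realize_relabel, hcastH]
    obtain ⟨t, ht⟩ := generates hx hn hW _ h1 (c (Fin.last k))
    have h2 := hc ((t.relabel Fin.castSucc).equal (Term.var (Fin.last k)))
    rw [Formula.realize_equal, Formula.realize_equal, Term.realize_relabel, Term.realize_relabel,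
      Term.realize_var, Term.realize_var, hcastH, Fin.snoc_last] at h2
    exact ⟨t.realize x, (hfreal t).trans (h2.1 ht)⟩

end Main

/-- For every field `P` and every `n ≥ 2`, the variety `Θ_n(P)` is logically perfect and logically
regular: every free algebra `W` of finite rank `k` of the variety is logically homogeneous, and
it is logically separable. -/
theorem result (P : Type u) [Field P] (n : ℕ) (hn : 2 ≤ n) (k : ℕ) (W : Type u) [NonUnitalRing W]
    [Module P W] [IsScalarTower P W W] [SMulCommClass P W W] (hW : IsNilpotent n W)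
    (x : Fin k → W) (hx : IsFree P n x) :
    LogicallyHomogeneous P W ∧ LogicallySeparable P n W := by
  refine ⟨fun m a b => ⟨fun hab => ?_, ?_⟩, separable hx hn hW⟩
  · rcases Nat.lt_or_ge n 3 with h | h
    · obtain rfl : n = 2 := by omega
      exact homogeneous_two hx hW a b hab
    · exact homogeneous_of_three_le hx h hW a b hab
  · rintro ⟨σ, hσ, hab⟩
    have h1 := sameType_of_bijective σ hσ a
    have h2 : σ ∘ a = b := funext hab
    rw [h2] at h1
    exact h1

end Pool.Agent.Results.MP_00fd70_lc.PerfectAndRegular
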